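import Mathlib

set_option autoImplicit false

/-!
# Sums of dilates are sums (MP_120218)
-/

namespace Pool.Agent.Helper99.MD

open Finset

theorem sum_ite_fin (M g u v : ℕ) (hg : g ≤ M) :
    ∑ b : Fin M, (if (b : ℕ) < g then u else v) = g * u + (M - g) * v := by
  rw [Fin.sum_univ_eq_sum_range (fun t => if t < g then u else v) M]
  rw [← Finset.sum_range_add_sum_Ico _ hg]
  rw [Finset.sum_congr rfl (g := fun _ => u) fun t ht => if_pos (Finset.mem_range.1 ht),
    Finset.sum_congr (s₁ := Finset.Ico g M) rfl (g := fun _ => v) fun t ht =>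
      if_neg (by have := (Finset.mem_Ico.1 ht).1; omega)]
  rw [Finset.sum_const, Finset.sum_const, Finset.card_range, Nat.card_Ico, smul_eq_mul,
    smul_eq_mul]

/-- sums of dilates by at most `M` are sums of `n M` elements, up to a translation -/
theorem dil_le (n M : ℕ) (g : Fin n → ℕ) (hg : ∀ i, g i ≤ M) (Y : Finset ℕ) (hY : Y.Nonempty) :
    ((Fintype.piFinset (fun _ : Fin n => Y)).image
      (fun f : Fin n → ℕ => ∑ i, ((g i : ℕ) : ℤ) * ((f i : ℕ) : ℤ))).card ≤
    ((Fintype.piFinset (fun _ : Fin (n * M) => Y)).image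
      (fun f : Fin (n * M) → ℕ => ∑ i, f i)).card := by
  classical
  obtain ⟨y0, hy0⟩ := hY
  set R : Finset ℕ := (Fintype.piFinset (fun _ : Fin (n * M) => Y)).image
    (fun f : Fin (n * M) → ℕ => ∑ i, f i) with hR
  refine (Finset.card_le_card_of_injOn (t := R.image (fun r : ℕ => (r : ℤ)))
    (fun z : ℤ => z + ((∑ i, (M - g i) * y0 : ℕ) : ℤ)) ?_ ?_).trans Finset.card_image_le
  · intro z hz
    rw [Finset.mem_coe] at hz ⊢
    obtain ⟨f, hf, rfl⟩ := Finset.mem_image.1 hz
    rw [Fintype.mem_piFinset] at hf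
    refine Finset.mem_image.2 ⟨∑ i, g i * f i + ∑ i, (M - g i) * y0, ?_, ?_⟩
    · rw [hR]
      refine Finset.mem_image.2 ⟨fun t => if ((finProdFinEquiv.symm t).2 : ℕ) <
        g (finProdFinEquiv.symm t).1 then f (finProdFinEquiv.symm t).1 else y0, ?_, ?_⟩
      · rw [Fintype.mem_piFinset]
        intro t
        split_ifs
        · exact hf _
        · exact hy0
      · show ∑ t, (fun x : Fin n × Fin M => if (x.2 : ℕ) < g x.1 then f x.1 else y0)
          (finProdFinEquiv.symm t) = _
        rw [Equiv.sum_comp finProdFinEquiv.symm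
          (fun x : Fin n × Fin M => if (x.2 : ℕ) < g x.1 then f x.1 else y0),
          Fintype.sum_prod_type, ← Finset.sum_add_distrib]
        exact Finset.sum_congr rfl fun i _ => sum_ite_fin M (g i) (f i) y0 (hg i)
    · push_cast
      ring
  · intro a _ b _ h
    simpa using h

end Pool.Agent.Helper99.MD
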