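import Pool.Agent.Helper24.MD.Branch

set_option autoImplicit false

/-!
# The tree rank is at most the multiplicative rank (MP_120218)
-/

namespace Pool.Agent.Helper99.MD

open Finset Pool.Agent.Helper24.MD

theorem val_prod (p : ℕ) [Fact p.Prime] {ι : Type*} (s : Finset ι) (x : ι → ℚ) (n : ι → ℤ)
    (h : ∏ i ∈ s, x i ^ n i ≠ 0) :
    padicValRat p (∏ i ∈ s, x i ^ n i) = ∑ i ∈ s, n i * padicValRat p (x i) := by
  classical
  induction s using Finset.induction_on with
  | empty => simp
  | insert a s ha ih =>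
    rw [Finset.prod_insert ha] at h ⊢
    rw [Finset.sum_insert ha]
    have h1 := left_ne_zero_of_mul h
    have h2 := right_ne_zero_of_mul h
    rw [padicValRat.mul h1 h2, ih h2]
    congr 1
    exact padicValRat.zpow _

theorem rank_dl {a b : ℕ} (ha : 0 < a) (hb : 0 < b) (hab : a ≠ b) :
    a.factorization (dl a b) ≠ b.factorization (dl a b) ∧
      ∀ q < dl a b, a.factorization q = b.factorization q := by
  have hne : {q : ℕ | a.factorization q ≠ b.factorization q}.Nonempty := by
    by_contra h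
    rw [Set.not_nonempty_iff_eq_empty] at h
    apply hab
    apply Nat.eq_of_factorization_eq ha.ne' hb.ne'
    intro q
    by_contra h'
    have : q ∈ {q : ℕ | a.factorization q ≠ b.factorization q} := h'
    rw [h] at this
    exact this
  refine ⟨Nat.sInf_mem hne, fun q hq => ?_⟩
  by_contra h
  exact Nat.notMem_of_lt_sInf hq h

/-- if `Y` is contained in a coset of a group generated by `R` rationals, the tree rank is at most `R` -/
theorem rr_le_rank (Y : Finset ℕ) (hpos : ∀ y ∈ Y, 0 < y) (R : ℕ) (x0 : ℚ) (x : Fin R → ℚ)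
    (h : ∀ y ∈ Y, ∃ n : Fin R → ℤ, (y : ℚ) = x0 * ∏ i, x i ^ n i) : rr Y ≤ R := by
  classical
  unfold rr
  refine Finset.sup_le fun a ha => ?_
  -- the vectors of the generators
  obtain ⟨V, hV⟩ : ∃ V : Fin R → ℕ → ℚ, V = fun i q =>
      if q.Prime then (padicValRat q (x i) : ℚ) else 0 := ⟨_, rfl⟩
  choose! n hn using h
  have hval : ∀ y ∈ Y, ∀ q : ℕ, q.Prime → ((y.factorization q : ℕ) : ℚ) =
      (padicValRat q x0 : ℚ) + ∑ i, (n y i : ℚ) * (padicValRat q (x i) : ℚ) := by
    intro y hy q hq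
    have : Fact q.Prime := ⟨hq⟩
    have hy0 : (y : ℚ) ≠ 0 := by exact_mod_cast (hpos y hy).ne'
    have h1 := hn y hy
    have h2 : x0 * ∏ i, x i ^ n y i ≠ 0 := by rw [← h1]; exact hy0
    have h3 : padicValRat q (y : ℚ) = ((y.factorization q : ℕ) : ℤ) := by
      rw [padicValRat.of_nat, Nat.factorization_def y hq]
    have h4 := congrArg (padicValRat q) h1
    rw [h3, padicValRat.mul (left_ne_zero_of_mul h2) (right_ne_zero_of_mul h2),
      val_prod q _ _ _ (right_ne_zero_of_mul h2)] at h4
    have h5 := congrArg (fun z : ℤ => (z : ℚ)) h4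
    push_cast at h5
    exact h5
  have hbr : ∀ p : br Y a, ∃ b ∈ Y, b ≠ a ∧ dl a b = p.1 := by
    rintro ⟨p, hp⟩
    unfold br at hp
    obtain ⟨b, hb, rfl⟩ := Finset.mem_image.1 hp
    rw [Finset.mem_erase] at hb
    exact ⟨b, hb.2, hb.1, rfl⟩
  choose b hbY hba hbp using hbr
  obtain ⟨w, hw⟩ : ∃ w : br Y a → ℕ → ℚ, w = fun p q =>
      (((b p).factorization q : ℕ) : ℚ) - ((a.factorization q : ℕ) : ℚ) := ⟨_, rfl⟩
  have hw0 : ∀ p : br Y a, w p p.1 ≠ 0 := by
    intro p
    have h1 := (rank_dl (hpos a ha) (hpos _ (hbY p)) (Ne.symm (hba p))).1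
    rw [hbp p] at h1
    rw [hw]
    intro h2
    apply h1
    have h3 : (((b p).factorization p.1 : ℕ) : ℚ) = ((a.factorization p.1 : ℕ) : ℚ) :=
      sub_eq_zero.1 h2
    exact_mod_cast h3.symm
  have hwlt : ∀ (p : br Y a) (q : ℕ), q < p.1 → w p q = 0 := by
    intro p q hq
    have h1 := (rank_dl (hpos a ha) (hpos _ (hbY p)) (Ne.symm (hba p))).2 q (by rw [hbp p]; exact hq)
    rw [hw]
    show (((b p).factorization q : ℕ) : ℚ) - ((a.factorization q : ℕ) : ℚ) = 0
    rw [h1, sub_self]
  have hlin : LinearIndependent ℚ w := by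
    rw [linearIndependent_iff']
    intro s g hg
    by_contra hcon
    push Not at hcon
    obtain ⟨i, his, hgi⟩ := hcon
    obtain ⟨p, hp, hmin⟩ := Finset.exists_min_image (s.filter fun i => g i ≠ 0)
      (fun i : br Y a => i.1) ⟨i, Finset.mem_filter.2 ⟨his, hgi⟩⟩
    rw [Finset.mem_filter] at hp
    have h1 := congrFun hg p.1
    rw [Finset.sum_apply, Finset.sum_eq_single_of_mem p hp.1] at h1
    · rcases mul_eq_zero.1 h1 with h2 | h2
      · exact hp.2 h2
      · exact hw0 p h2
    · intro q hq hqp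
      show g q * w q p.1 = 0
      by_cases hgq : g q = 0
      · rw [hgq, zero_mul]
      · have h2 := hmin q (Finset.mem_filter.2 ⟨hq, hgq⟩)
        have h3 : p.1 < q.1 := lt_of_le_of_ne h2 fun h => hqp (Subtype.ext h.symm)
        rw [hwlt q p.1 h3, mul_zero]
  have hspan : Set.range w ≤ (Submodule.span ℚ (Set.range V) : Set (ℕ → ℚ)) := by
    rintro _ ⟨p, rfl⟩
    have h1 : w p = ∑ i, ((n (b p) i : ℚ) - (n a i : ℚ)) • V i := by
      ext q
      rw [Finset.sum_apply, hw, hV]
      by_cases hq : q.Prime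
      · simp only [Pi.smul_apply, smul_eq_mul, if_pos hq]
        rw [hval _ (hbY p) q hq, hval a ha q hq]
        rw [add_sub_add_left_eq_sub, ← Finset.sum_sub_distrib]
        refine Finset.sum_congr rfl fun i _ => ?_
        ring
      · simp only [Pi.smul_apply, smul_eq_mul, if_neg hq, mul_zero, Finset.sum_const_zero]
        rw [Nat.factorization_eq_zero_of_not_prime _ hq, Nat.factorization_eq_zero_of_not_prime _ hq,
          sub_self]
    rw [h1]
    exact Submodule.sum_mem _ fun i _ => Submodule.smul_mem _ _ (Submodule.subset_span ⟨i, rfl⟩)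
  have hcard := linearIndependent_le_span' w hlin (Set.range V) hspan
  rw [Cardinal.mk_coe_finset, Nat.cast_le] at hcard
  refine hcard.trans ?_
  have := Fintype.card_range_le V
  rwa [Fintype.card_fin] at this

end Pool.Agent.Helper99.MD
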