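import Pool.Agent.Helper24.MD.EndN
import Pool.Agent.Helper99.MD.Dil
import Pool.Agent.Helper99.MD.Rank

set_option autoImplicit false

/-!
# Sums alone, for every set of rank at most `C log |A|` (MP_120218)

Uses Proposition S of project MD (helper24).
-/

namespace Pool.Agent.Helper99.MD

open Finset Pool.Agent.Helper24.MD

/-- `k`-fold sums of dilates in terms of the tree rank -/
theorem sums_rr (k : ℕ) (ε C : ℝ) (hε : 0 < ε) (hC : 0 < C) : ∃ m : ℕ, 2 ≤ m ∧ ∃ K : ℝ, 0 ≤ K ∧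
    ∀ G : Finset ℕ, m ≤ G.card → (∀ g ∈ G, ∀ g' ∈ G, g ≠ g' → Nat.Coprime g g') →
    ∀ W : Finset ℕ, (∀ p : ℕ, p.Prime → p ∉ W → ∀ g ∈ G, ∀ g' ∈ G,
      ((g : ℕ) : ZMod p) = ((g' : ℕ) : ZMod p) → g = g') →
    ∀ Y : Finset ℕ, Y.Nonempty → (∀ y ∈ Y, 0 < y) →
      ∃ g : Fin k → ℕ, (∀ i, g i ∈ G) ∧
        ((k : ℝ) - ε) * Real.log (Y.card : ℝ) - ε / C * (rr Y : ℝ) - K * (1 + (qq W Y : ℝ)) ≤
          Real.log ((((Fintype.piFinset (fun _ : Fin k => Y)).image
            (fun f : Fin k → ℕ => ∑ i, ((g i : ℕ) : ℤ) * ((f i : ℕ) : ℤ))).card : ℕ) : ℝ) := by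
  rcases Nat.eq_zero_or_pos k with hk | hk
  · subst hk
    refine ⟨2, le_rfl, 0, le_rfl, ?_⟩
    intro G _ _ W _ Y _ _
    refine ⟨fun i => i.elim0, fun i => i.elim0, ?_⟩
    have h1 : 0 ≤ Real.log (Y.card : ℝ) := Real.log_natCast_nonneg _
    have h3 : 0 ≤ ε / C * (rr Y : ℝ) := by positivity
    have h2 : (((0 : ℕ) : ℝ) - ε) * Real.log (Y.card : ℝ) - ε / C * (rr Y : ℝ) -
        0 * (1 + (qq W Y : ℝ)) ≤ 0 := by
      rw [Nat.cast_zero]
      nlinarith
    exact le_trans h2 (Real.log_natCast_nonneg _)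
  · have hκ : (1 : ℝ) ≤ (k : ℝ) := by exact_mod_cast hk
    set κ : ℝ := (k : ℝ) with hκd
    set e : ℝ := min ε 1 with he
    have he0 : 0 < e := lt_min hε one_pos
    have he1 : e ≤ 1 := min_le_right _ _
    have hee : e ≤ ε := min_le_left _ _
    have hκ0 : 0 < κ := by linarith
    have hε10 : 0 < e / (κ * (κ + 1)) := by positivity
    have hε11 : e / (κ * (κ + 1)) ≤ 1 := by
      rw [div_le_one (by positivity)]; nlinarith
    have hlam1 : 0 < ε / (C * κ) := by positivity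
    obtain ⟨m, hm, K, hK, hprop⟩ := propS _ _ hε10 hε11 hlam1
    refine ⟨m, hm, κ * K, by positivity, ?_⟩
    intro G hG hco W hWG Y hY hYpos
    have hGne : G.Nonempty := Finset.card_pos.1 (by omega)
    have hB0 : 0 ≤ ε / (C * κ) * (rr Y : ℝ) + K * (qq W Y : ℝ) := by positivity
    obtain ⟨g, hg, hgs⟩ := kfold (e / (κ * (κ + 1)))
      (ε / (C * κ) * (rr Y : ℝ) + K * (qq W Y : ℝ)) hε10.le hB0 G hGne Y hY (by
        intro X hX
        have h1 := hprop G hG hco W hWG Y hY hYpos X hX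
        unfold Bd at h1
        linarith) k
    refine ⟨g, hg, ?_⟩
    refine le_trans ?_ hgs
    have hL : 0 ≤ Real.log (Y.card : ℝ) := Real.log_natCast_nonneg _
    have hq0 : (0 : ℝ) ≤ (qq W Y : ℝ) := Nat.cast_nonneg _
    generalize Real.log (Y.card : ℝ) = LY at *
    generalize (qq W Y : ℝ) = q at *
    generalize (rr Y : ℝ) = r at *
    have c2 : κ * LY - κ * ((κ + 1) * (e / (κ * (κ + 1))) * LY +
        (ε / (C * κ) * r + K * q)) = (κ - e) * LY - ε / C * r - κ * K * q := by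
      field_simp
      ring
    rw [c2]
    have d2 : (κ - ε) * LY ≤ (κ - e) * LY := mul_le_mul_of_nonneg_right (by linarith) hL
    have d3 : 0 ≤ κ * K := by positivity
    nlinarith

/-- positive integers of tree rank at most `C log |Y|` -/
theorem natR (C B : ℝ) (hC : 0 < C) : ∃ K : ℕ, ∃ D : ℝ, 0 ≤ D ∧
    ∀ Y : Finset ℕ, Y.Nonempty → (∀ y ∈ Y, 0 < y) →
      (rr Y : ℝ) ≤ C * (Real.log 4 + Real.log (Y.card : ℝ)) →
      B * Real.log (Y.card : ℝ) - D ≤
        Real.log ((((Fintype.piFinset (fun _ : Fin K => Y)).image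
          (fun f : Fin K → ℕ => ∑ i, f i)).card : ℕ) : ℝ) := by
  classical
  obtain ⟨k, hk⟩ : ∃ k : ℕ, B + 2 ≤ (k : ℝ) := ⟨⌈B + 2⌉₊, Nat.le_ceil _⟩
  obtain ⟨m, -, K0, hK0, hmain⟩ := sums_rr k 1 C one_pos hC
  -- the first `m` primes
  have hinj : Function.Injective (Nat.nth Nat.Prime) :=
    Nat.nth_injective Nat.infinite_setOfPred_prime
  obtain ⟨G, hG⟩ : ∃ G : Finset ℕ, G = (Finset.range m).image (Nat.nth Nat.Prime) := ⟨_, rfl⟩
  have hGp : ∀ g ∈ G, g.Prime := by
    intro g hg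
    rw [hG] at hg
    obtain ⟨i, -, rfl⟩ := Finset.mem_image.1 hg
    exact Nat.prime_nth_prime i
  have hGc : m ≤ G.card := by
    rw [hG, Finset.card_image_of_injective _ hinj, Finset.card_range]
  obtain ⟨M, hM⟩ : ∃ M : ℕ, ∀ g ∈ G, g ≤ M := ⟨G.sup id, fun g hg => Finset.le_sup (f := id) hg⟩
  have hl4 : 0 ≤ Real.log 4 := Real.log_nonneg (by norm_num)
  refine ⟨k * M, K0 * (1 + ((Finset.range (M + 1)).card : ℝ)) + Real.log 4, by positivity, ?_⟩
  intro Y hY hpos hrank
  obtain ⟨g, hg, h⟩ := hmain G hGc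
    (fun a ha b hb hne => (Nat.coprime_primes (hGp a ha) (hGp b hb)).2 hne)
    (Finset.range (M + 1)) (by
      intro p hp hpM a ha b hb hab
      have h1 : M < p := by
        by_contra hcon
        exact hpM (Finset.mem_range.2 (by omega))
      have h2 := (ZMod.natCast_eq_natCast_iff' a b p).1 hab
      rwa [Nat.mod_eq_of_lt (lt_of_le_of_lt (hM a ha) h1),
        Nat.mod_eq_of_lt (lt_of_le_of_lt (hM b hb) h1)] at h2) Y hY hpos
  have hL : 0 ≤ Real.log (Y.card : ℝ) := Real.log_natCast_nonneg _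
  have hq : (qq (Finset.range (M + 1)) Y : ℝ) ≤ ((Finset.range (M + 1)).card : ℝ) := by
    unfold qq
    exact_mod_cast Finset.card_filter_le _ _
  have h2 : Real.log ((((Fintype.piFinset (fun _ : Fin k => Y)).image
      (fun f : Fin k → ℕ => ∑ i, ((g i : ℕ) : ℤ) * ((f i : ℕ) : ℤ))).card : ℕ) : ℝ) ≤
      Real.log ((((Fintype.piFinset (fun _ : Fin (k * M) => Y)).image
          (fun f : Fin (k * M) → ℕ => ∑ i, f i)).card : ℕ) : ℝ) := by
    refine Real.log_le_log ?_ ?_
    · exact_mod_cast Finset.card_pos.2 ((Fintype.piFinset_nonempty.2 fun _ => hY).image _)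
    · exact_mod_cast dil_le k M g (fun i => hM _ (hg i)) Y hY
  have h3 : K0 * (1 + (qq (Finset.range (M + 1)) Y : ℝ)) ≤
      K0 * (1 + ((Finset.range (M + 1)).card : ℝ)) :=
    mul_le_mul_of_nonneg_left (by linarith) hK0
  have h4 : 1 / C * (rr Y : ℝ) ≤ Real.log 4 + Real.log (Y.card : ℝ) := by
    rw [div_mul_eq_mul_div, one_mul, div_le_iff₀ hC]
    linarith
  have h5 : (B + 2) * Real.log (Y.card : ℝ) ≤ (k : ℝ) * Real.log (Y.card : ℝ) :=
    mul_le_mul_of_nonneg_right hk hL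
  linarith [h, h2, h3, h4, h5]

/-- a half of a set of integers, in absolute value -/
theorem half (A : Finset ℤ) (hA : 2 ≤ A.card) : ∃ σ : ℤ, (σ = 1 ∨ σ = -1) ∧ ∃ Y : Finset ℕ,
    Y.Nonempty ∧ (∀ y ∈ Y, 0 < y ∧ σ * (y : ℤ) ∈ A) ∧ A.card ≤ 4 * Y.card := by
  classical
  obtain ⟨P, hP⟩ : ∃ P : Finset ℤ, P = A.filter (fun a => 0 < a) := ⟨_, rfl⟩
  obtain ⟨Q, hQ⟩ : ∃ Q : Finset ℤ, Q = A.filter (fun a => a < 0) := ⟨_, rfl⟩
  have hsum : A.card ≤ P.card + Q.card + 1 := by
    have h1 : A ⊆ (P ∪ Q) ∪ {0} := by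
      intro a ha
      rw [Finset.mem_union, Finset.mem_union, hP, hQ, Finset.mem_filter, Finset.mem_filter,
        Finset.mem_singleton]
      rcases lt_trichotomy a 0 with h | h | h
      · exact Or.inl (Or.inr ⟨ha, h⟩)
      · exact Or.inr h
      · exact Or.inl (Or.inl ⟨ha, h⟩)
    refine (Finset.card_le_card h1).trans ((Finset.card_union_le _ _).trans ?_)
    rw [Finset.card_singleton]
    exact Nat.add_le_add_right (Finset.card_union_le _ _) 1
  by_cases hPQ : Q.card ≤ P.card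
  · refine ⟨1, Or.inl rfl, P.image Int.natAbs, ?_, ?_, ?_⟩
    · refine Finset.Nonempty.image (Finset.card_pos.1 (by omega)) _
    · intro y hy
      obtain ⟨a, ha, rfl⟩ := Finset.mem_image.1 hy
      rw [hP, Finset.mem_filter] at ha
      refine ⟨Int.natAbs_pos.2 ha.2.ne', ?_⟩
      rw [one_mul, Int.natAbs_of_nonneg ha.2.le]
      exact ha.1
    · rw [Finset.card_image_of_injOn]
      · omega
      · intro a ha b hb hab
        rw [Finset.mem_coe, hP, Finset.mem_filter] at ha hb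
        have h1 : (a.natAbs : ℤ) = b.natAbs := by exact_mod_cast hab
        rwa [Int.natAbs_of_nonneg ha.2.le, Int.natAbs_of_nonneg hb.2.le] at h1
  · refine ⟨-1, Or.inr rfl, Q.image Int.natAbs, ?_, ?_, ?_⟩
    · refine Finset.Nonempty.image (Finset.card_pos.1 (by omega)) _
    · intro y hy
      obtain ⟨a, ha, rfl⟩ := Finset.mem_image.1 hy
      rw [hQ, Finset.mem_filter] at ha
      refine ⟨Int.natAbs_pos.2 ha.2.ne, ?_⟩
      have h1 : ((a.natAbs : ℕ) : ℤ) = -a := by
        rw [Int.natCast_natAbs, abs_of_neg ha.2]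
      rw [h1]
      simpa using ha.1
    · rw [Finset.card_image_of_injOn]
      · omega
      · intro a ha b hb hab
        rw [Finset.mem_coe, hQ, Finset.mem_filter] at ha hb
        have h1 : ((a.natAbs : ℕ) : ℤ) = b.natAbs := by exact_mod_cast hab
        rw [Int.natCast_natAbs, Int.natCast_natAbs, abs_of_neg ha.2, abs_of_neg hb.2] at h1
        linarith

/-- **Sums alone, for every set of rank at most `C log |A|`.** -/
theorem everyR (C B : ℝ) (hC : 0 < C) : ∃ K : ℕ, ∃ c : ℝ, 0 < c ∧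
    ∀ A : Finset ℤ, A.Nonempty → ∀ (R : ℕ) (x0 : ℚ) (x : Fin R → ℚ),
      (R : ℝ) ≤ C * Real.log (A.card : ℝ) →
      (∀ a ∈ A, a ≠ 0 → ∃ n : Fin R → ℤ, (a : ℚ) = x0 * ∏ i, x i ^ n i) →
      c * (A.card : ℝ) ^ B ≤
        (((Fintype.piFinset (fun _ : Fin K => A)).image (fun f : Fin K → ℤ => ∑ i, f i)).card : ℝ) := by
  classical
  obtain ⟨K, D, hD, hnat⟩ := natR C B hC
  have hl4 : 0 ≤ Real.log 4 := Real.log_nonneg (by norm_num)
  refine ⟨K, Real.exp (-(|B| * Real.log 4 + D)), Real.exp_pos _, ?_⟩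
  intro A hA R x0 x hR h
  have hone : (1 : ℝ) ≤ (((Fintype.piFinset (fun _ : Fin K => A)).image
      (fun f : Fin K → ℤ => ∑ i, f i)).card : ℝ) := by
    exact_mod_cast Finset.card_pos.2 ((Fintype.piFinset_nonempty.2 fun _ => hA).image _)
  by_cases h2 : A.card < 2
  · have h1 : A.card = 1 := by
      have := Finset.card_pos.2 hA
      omega
    rw [h1, Nat.cast_one, Real.one_rpow, mul_one]
    refine le_trans ?_ hone
    rw [Real.exp_le_one_iff]
    have : 0 ≤ |B| * Real.log 4 := by positivity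
    linarith
  push Not at h2
  obtain ⟨σ, hσ, Y, hY, hYA, hcard⟩ := half A h2
  have hσ1 : σ * σ = 1 := by rcases hσ with rfl | rfl <;> norm_num
  have hYpos : ∀ y ∈ Y, 0 < y := fun y hy => (hYA y hy).1
  have hN : (0 : ℝ) < (A.card : ℝ) := by exact_mod_cast Finset.card_pos.2 hA
  have hYc : (0 : ℝ) < (Y.card : ℝ) := by exact_mod_cast Finset.card_pos.2 hY
  have hlog1 : Real.log (A.card : ℝ) ≤ Real.log 4 + Real.log (Y.card : ℝ) := by
    rw [← Real.log_mul (by norm_num) hYc.ne']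
    exact Real.log_le_log hN (by exact_mod_cast hcard)
  have hYA' : Y.card ≤ A.card := by
    refine Finset.card_le_card_of_injOn (fun y : ℕ => σ * (y : ℤ)) (fun y hy => (hYA y hy).2) ?_
    intro a _ b _ hab
    have h3 := congrArg (fun z => σ * z) hab
    simp only [← mul_assoc, hσ1, one_mul] at h3
    exact_mod_cast h3
  have hlog2 : Real.log (Y.card : ℝ) ≤ Real.log (A.card : ℝ) :=
    Real.log_le_log hYc (by exact_mod_cast hYA')
  -- rank
  have hrank : rr Y ≤ R := by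
    refine rr_le_rank Y hYpos R (σ * x0) x fun y hy => ?_
    have hy0 : σ * (y : ℤ) ≠ 0 := by
      intro h0
      have h3 := congrArg (fun z => σ * z) h0
      simp only [← mul_assoc, hσ1, one_mul, mul_zero] at h3
      have := hYpos y hy
      omega
    obtain ⟨n, hn⟩ := h _ (hYA y hy).2 hy0
    refine ⟨n, ?_⟩
    have h3 : ((σ : ℚ) * σ) = 1 := by exact_mod_cast hσ1
    push_cast at hn
    calc (y : ℚ) = (σ * σ) * y := by rw [h3, one_mul]
      _ = σ * (σ * y) := by ring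
      _ = σ * (x0 * ∏ i, x i ^ n i) := by rw [hn]
      _ = σ * x0 * ∏ i, x i ^ n i := by ring
  have hmain := hnat Y hY hYpos (by
    have h3 : (rr Y : ℝ) ≤ (R : ℝ) := by exact_mod_cast hrank
    have h4 : C * Real.log (A.card : ℝ) ≤ C * (Real.log 4 + Real.log (Y.card : ℝ)) :=
      mul_le_mul_of_nonneg_left hlog1 hC.le
    linarith)
  -- sums
  have hsum : ((Fintype.piFinset (fun _ : Fin K => Y)).image
      (fun f : Fin K → ℕ => ∑ i, f i)).card ≤
      ((Fintype.piFinset (fun _ : Fin K => A)).image (fun f : Fin K → ℤ => ∑ i, f i)).card := by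
    refine Finset.card_le_card_of_injOn (fun z : ℕ => σ * (z : ℤ)) ?_ ?_
    · intro z hz
      rw [Finset.mem_coe] at hz ⊢
      obtain ⟨f, hf, rfl⟩ := Finset.mem_image.1 hz
      rw [Fintype.mem_piFinset] at hf
      refine Finset.mem_image.2 ⟨fun i => σ * (f i : ℤ), ?_, ?_⟩
      · rw [Fintype.mem_piFinset]
        exact fun i => (hYA _ (hf i)).2
      · push_cast
        rw [Finset.mul_sum]
    · intro a _ b _ hab
      have h3 := congrArg (fun z => σ * z) hab
      simp only [← mul_assoc, hσ1, one_mul] at h3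
      exact_mod_cast h3
  have hsum' : Real.log ((((Fintype.piFinset (fun _ : Fin K => Y)).image
      (fun f : Fin K → ℕ => ∑ i, f i)).card : ℕ) : ℝ) ≤
      Real.log (((Fintype.piFinset (fun _ : Fin K => A)).image
        (fun f : Fin K → ℤ => ∑ i, f i)).card : ℝ) := by
    refine Real.log_le_log ?_ (by exact_mod_cast hsum)
    exact_mod_cast Finset.card_pos.2 ((Fintype.piFinset_nonempty.2 fun _ => hY).image _)
  have hB : B * Real.log (A.card : ℝ) ≤ |B| * Real.log 4 + B * Real.log (Y.card : ℝ) := by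
    rcases le_total 0 B with hB | hB
    · rw [abs_of_nonneg hB]
      have := mul_le_mul_of_nonneg_left hlog1 hB
      linarith
    · have h3 := mul_le_mul_of_nonpos_left hlog2 hB
      have h4 : 0 ≤ |B| * Real.log 4 := by positivity
      linarith
  rw [← Real.log_le_log_iff (by positivity) (by linarith), Real.log_mul (Real.exp_pos _).ne'
    (Real.rpow_pos_of_pos hN _).ne', Real.log_exp, Real.log_rpow hN]
  linarith

end Pool.Agent.Helper99.MD
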