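import Pool.Agent.Helper24.MD.EndT

set_option autoImplicit false

/-! # Project MD (MP_120218), part (1) with the exponent `k + 1`

Both iterations start with the whole set. The Proposition S used is a hypothesis. -/

namespace Pool.Agent.Helper99.MD

open Finset Pool.Agent.Helper24.MD

/-- `(k+1)`-fold product sets, started with the whole set -/
theorem kprod1 (η ρ : ℝ) (hη : 0 ≤ η) (hη1 : η ≤ 1) (hρ : 0 ≤ ρ) (A : Finset ℕ)
    (hA : A.Nonempty) (hpos : ∀ a ∈ A, 0 < a)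
    (h : ∀ B : Finset ℕ, B.Nonempty → (∀ b ∈ B, 0 < b) →
      (1 - η) * (Real.log (B.card : ℝ) + ρ) ≤
        Real.log ((Finset.image₂ (fun x y : ℕ => x * y) B A).card : ℝ)) (k : ℕ) :
    (1 - ((k : ℝ) + 1) * η) * (Real.log (A.card : ℝ) + k * ρ) ≤
      Real.log ((((Fintype.piFinset (fun _ : Fin (k + 1) => A)).image
        (fun f : Fin (k + 1) → ℕ => ∏ i, f i)).card : ℕ) : ℝ) := by
  have hL : 0 ≤ Real.log (A.card : ℝ) := Real.log_natCast_nonneg _
  induction k with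
  | zero =>
    have h1 : A ⊆ (Fintype.piFinset (fun _ : Fin (0 + 1) => A)).image
        (fun f : Fin (0 + 1) → ℕ => ∏ i, f i) := by
      intro a ha
      rw [Finset.mem_image]
      refine ⟨fun _ => a, ?_, ?_⟩
      · rw [Fintype.mem_piFinset]
        exact fun _ => ha
      · simp
    have h2 : Real.log (A.card : ℝ) ≤
        Real.log ((((Fintype.piFinset (fun _ : Fin (0 + 1) => A)).image
        (fun f : Fin (0 + 1) → ℕ => ∏ i, f i)).card : ℕ) : ℝ) := by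
      apply Real.log_le_log
      · exact_mod_cast Finset.card_pos.2 hA
      · exact_mod_cast Finset.card_le_card h1
    refine le_trans ?_ h2
    have h3 : (1 - (((0 : ℕ) : ℝ) + 1) * η) * (Real.log (A.card : ℝ) + ((0 : ℕ) : ℝ) * ρ) =
        (1 - η) * Real.log (A.card : ℝ) := by
      rw [Nat.cast_zero]
      ring
    rw [h3]
    nlinarith
  | succ k ih =>
    set P : Finset ℕ := (Fintype.piFinset (fun _ : Fin (k + 1) => A)).image
      (fun f : Fin (k + 1) → ℕ => ∏ i, f i) with hP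
    have hPne : P.Nonempty := by
      rw [hP]
      refine Finset.Nonempty.image ?_ _
      rw [Fintype.piFinset_nonempty]
      intro _; exact hA
    have hPpos : ∀ b ∈ P, 0 < b := by
      intro b hb
      rw [hP, Finset.mem_image] at hb
      obtain ⟨f, hf, rfl⟩ := hb
      rw [Fintype.mem_piFinset] at hf
      exact Finset.prod_pos fun i _ => hpos _ (hf i)
    have h1 := h P hPne hPpos
    have hsub : Finset.image₂ (fun x y : ℕ => x * y) P A ⊆
        (Fintype.piFinset (fun _ : Fin (k + 1 + 1) => A)).image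
          (fun f : Fin (k + 1 + 1) → ℕ => ∏ i, f i) := by
      intro z hz
      rw [Finset.mem_image₂] at hz
      obtain ⟨x, hx, y, hy, rfl⟩ := hz
      rw [hP, Finset.mem_image] at hx
      obtain ⟨f, hf, rfl⟩ := hx
      rw [Fintype.mem_piFinset] at hf
      rw [Finset.mem_image]
      refine ⟨Fin.snoc f y, ?_, ?_⟩
      · rw [Fintype.mem_piFinset]
        intro i
        refine Fin.lastCases ?_ (fun j => ?_) i
        · rw [Fin.snoc_last]; exact hy
        · rw [Fin.snoc_castSucc]; exact hf j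
      · rw [Fin.prod_univ_castSucc]
        simp only [Fin.snoc_castSucc, Fin.snoc_last]
    have hne2 : (Finset.image₂ (fun x y : ℕ => x * y) P A).Nonempty := hPne.image₂ hA
    have h2 : Real.log ((Finset.image₂ (fun x y : ℕ => x * y) P A).card : ℝ) ≤
        Real.log (((((Fintype.piFinset (fun _ : Fin (k + 1 + 1) => A)).image
          (fun f : Fin (k + 1 + 1) → ℕ => ∏ i, f i)).card : ℕ)) : ℝ) := by
      apply Real.log_le_log
      · exact_mod_cast Finset.card_pos.2 hne2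
      · exact_mod_cast Finset.card_le_card hsub
    refine le_trans ?_ h2
    refine le_trans ?_ h1
    have h3 : (1 - η) * ((1 - ((k : ℝ) + 1) * η) * (Real.log (A.card : ℝ) + k * ρ) + ρ) ≤
        (1 - η) * (Real.log (P.card : ℝ) + ρ) :=
      mul_le_mul_of_nonneg_left (by linarith) (by linarith)
    refine le_trans ?_ h3
    push_cast
    have hk : (0 : ℝ) ≤ k := Nat.cast_nonneg k
    generalize Real.log (A.card : ℝ) = L at *
    have e : (1 - η) * ((1 - ((k : ℝ) + 1) * η) * (L + k * ρ) + ρ) -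
        (1 - ((k : ℝ) + 1 + 1) * η) * (L + ((k : ℝ) + 1) * ρ) =
        ((k : ℝ) + 1) * η * ρ + ((k : ℝ) + 1) * η ^ 2 * (L + k * ρ) := by ring
    have e2 : 0 ≤ ((k : ℝ) + 1) * η * ρ + ((k : ℝ) + 1) * η ^ 2 * (L + k * ρ) := by positivity
    linarith

/-- iteration for sums, started with the whole set -/
theorem kfold1 (ε B : ℝ) (hε : 0 ≤ ε) (_hB : 0 ≤ B) (G : Finset ℕ) (hG : ∃ g ∈ G, 0 < g)
    (Y S : Finset ℕ) (hY : Y.Nonempty) (hS : S.Nonempty) (hSY : S ⊆ Y)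
    (h : ∀ X : Finset ℤ, X.Nonempty → av G (fun g => dd g X S) ≤
      ε * Real.log (X.card : ℝ) + ε * Real.log (S.card : ℝ) + B) (k : ℕ) :
    ∃ g : Fin (k + 1) → ℕ, (∀ i, g i ∈ G) ∧
      Real.log (Y.card : ℝ) + (k : ℝ) * Real.log (S.card : ℝ) -
          (k : ℝ) * (((k : ℝ) + 1) * ε * Real.log (Y.card : ℝ) + B) ≤
        Real.log ((((Fintype.piFinset (fun _ : Fin (k + 1) => Y)).image
          (fun f : Fin (k + 1) → ℕ => ∑ i, ((g i : ℕ) : ℤ) * ((f i : ℕ) : ℤ))).card : ℕ) : ℝ) := by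
  classical
  have hGne : G.Nonempty := by
    obtain ⟨g, hg, -⟩ := hG
    exact ⟨g, hg⟩
  have hL : 0 ≤ Real.log (Y.card : ℝ) := Real.log_natCast_nonneg _
  have hLS : Real.log (S.card : ℝ) ≤ Real.log (Y.card : ℝ) := by
    apply Real.log_le_log
    · exact_mod_cast Finset.card_pos.2 hS
    · exact_mod_cast Finset.card_le_card hSY
  suffices hsuf : ∃ g : Fin (k + 1) → ℕ, (∀ i, g i ∈ G) ∧ ∃ X : Finset ℤ, X.Nonempty ∧
      X ⊆ kf_X g Y ∧ Real.log (X.card : ℝ) ≤ ((k : ℝ) + 1) * Real.log (Y.card : ℝ) ∧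
      Real.log (Y.card : ℝ) + (k : ℝ) * Real.log (S.card : ℝ) -
          (k : ℝ) * (((k : ℝ) + 1) * ε * Real.log (Y.card : ℝ) + B) ≤
        Real.log (X.card : ℝ) by
    obtain ⟨g, hg, X, hX, hXs, -, hb⟩ := hsuf
    refine ⟨g, hg, le_trans hb ?_⟩
    change Real.log (X.card : ℝ) ≤ Real.log (((kf_X g Y).card : ℕ) : ℝ)
    apply Real.log_le_log
    · exact_mod_cast Finset.card_pos.2 hX
    · exact_mod_cast Finset.card_le_card hXs
  induction k with
  | zero =>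
    obtain ⟨g0, hg0, hg0p⟩ := hG
    refine ⟨fun _ => g0, fun _ => hg0, Y.image (fun y : ℕ => (g0 : ℤ) * (y : ℤ)),
      hY.image _, ?_, ?_, ?_⟩
    · intro z hz
      obtain ⟨y, hy, rfl⟩ := Finset.mem_image.1 hz
      unfold kf_X
      refine Finset.mem_image.2 ⟨fun _ => y, ?_, ?_⟩
      · rw [Fintype.mem_piFinset]
        exact fun _ => hy
      · simp
    all_goals
      have hcard : (Y.image (fun y : ℕ => (g0 : ℤ) * (y : ℤ))).card = Y.card := by
        apply Finset.card_image_of_injective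
        intro a b hab
        have h0 : (g0 : ℤ) ≠ 0 := by exact_mod_cast hg0p.ne'
        have h1 := mul_left_cancel₀ h0 hab
        exact_mod_cast h1
      rw [hcard, Nat.cast_zero]
      linarith
  | succ k ih =>
    obtain ⟨g, hg, X, hX, hXs, hXu, hXl⟩ := ih
    obtain ⟨g0, hg0, hg0k⟩ := kf_min G hGne _ _ (h X hX)
    refine ⟨Fin.cons g0 g, ?_, sm g0 X S, ?_, ?_, ?_, ?_⟩
    · intro i
      refine Fin.cases ?_ (fun j => ?_) i
      · simpa using hg0
      · simpa using hg j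
    · unfold sm
      exact hX.image₂ hS
    · refine subset_trans ?_ (kf_sub g g0 Y)
      unfold sm
      exact Finset.image₂_subset hXs hSY
    · have h1 : (sm g0 X S).card ≤ X.card * S.card := by
        unfold sm
        exact Finset.card_image₂_le _ _ _
      have hX0 : (0 : ℝ) < X.card := by exact_mod_cast Finset.card_pos.2 hX
      have hS0 : (0 : ℝ) < S.card := by exact_mod_cast Finset.card_pos.2 hS
      have hsm : (0 : ℝ) < ((sm g0 X S).card : ℝ) := by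
        have : (sm g0 X S).Nonempty := by
          unfold sm
          exact hX.image₂ hS
        exact_mod_cast Finset.card_pos.2 this
      have h2 : Real.log ((sm g0 X S).card : ℝ) ≤ Real.log (X.card : ℝ) +
          Real.log (S.card : ℝ) := by
        rw [← Real.log_mul hX0.ne' hS0.ne']
        apply Real.log_le_log hsm
        exact_mod_cast h1
      push_cast
      linarith
    · have h3 : ε * Real.log (X.card : ℝ) ≤ ε * (((k : ℝ) + 1) * Real.log (Y.card : ℝ)) :=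
        mul_le_mul_of_nonneg_left hXu hε
      have h4 : ε * Real.log (S.card : ℝ) ≤ ε * Real.log (Y.card : ℝ) :=
        mul_le_mul_of_nonneg_left hLS hε
      have h5 : 0 ≤ (k : ℝ) * (ε * Real.log (Y.card : ℝ)) :=
        mul_nonneg (Nat.cast_nonneg _) (mul_nonneg hε hL)
      unfold dd at hg0k
      push_cast
      nlinarith [hXl, hg0k, h3, h4, h5]

/-- **(1) with the exponent `k + 1`** (here for `k + 1` factors: the exponent is `k + 2`),
over an abstract Proposition S -/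
theorem main1k_abs (Hyp : ℕ → Finset ℕ → Finset ℕ → Finset ℕ → Prop)
    (hmono : ∀ (m : ℕ) (G W Y Z : Finset ℕ), Z ⊆ Y → Hyp m G W Y → Hyp m G W Z)
    (hprop : ∀ ε lam : ℝ, 0 < ε → ε ≤ 1 → 0 < lam → ∃ m : ℕ, 2 ≤ m ∧ ∃ K : ℝ, 0 ≤ K ∧
      ∀ G W Y : Finset ℕ, G.Nonempty → Hyp m G W Y → Y.Nonempty → (∀ y ∈ Y, 0 < y) →
      ∀ X : Finset ℤ, X.Nonempty → av G (fun g => dd g X Y) ≤ Bd ε lam K W X Y)
    (k : ℕ) (ε : ℝ) (hε : 0 < ε) : ∃ m : ℕ, 2 ≤ m ∧ ∃ K : ℝ, 0 ≤ K ∧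
    ∀ G W Y : Finset ℕ, (∃ g ∈ G, 0 < g) → Hyp m G W Y → Y.Nonempty → (∀ y ∈ Y, 0 < y) →
      ∃ g : Fin (k + 1) → ℕ, (∀ i, g i ∈ G) ∧
        ((k : ℝ) + 2 - ε) * Real.log (Y.card : ℝ) - K * (1 + (qq W Y : ℝ)) ≤
          Real.log ((((Fintype.piFinset (fun _ : Fin (k + 1) => Y)).image
            (fun f : Fin (k + 1) → ℕ => ∏ i, f i)).card : ℕ) : ℝ) +
          Real.log ((((Fintype.piFinset (fun _ : Fin (k + 1) => Y)).image
            (fun f : Fin (k + 1) → ℕ => ∑ i, ((g i : ℕ) : ℤ) * ((f i : ℕ) : ℤ))).card : ℕ) :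
              ℝ) := by
  obtain ⟨κ, hκd⟩ : ∃ κ : ℝ, κ = (k : ℝ) := ⟨_, rfl⟩
  have hκ0 : 0 ≤ κ := by rw [hκd]; exact Nat.cast_nonneg _
  obtain ⟨e, he⟩ : ∃ e : ℝ, e = min ε 1 := ⟨_, rfl⟩
  have he0 : 0 < e := by rw [he]; exact lt_min hε one_pos
  have he1 : e ≤ 1 := by rw [he]; exact min_le_right _ _
  have hee : e ≤ ε := by rw [he]; exact min_le_left _ _
  -- the parameters
  have hη0 : 0 < e / (4 * (κ + 1) ^ 2) := by positivity
  have hη1 : e / (4 * (κ + 1) ^ 2) ≤ 1 := by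
    rw [div_le_one (by positivity)]; nlinarith
  have hε0' : 0 < e / (8 * (κ + 1)) := by positivity
  have hε1' : e / (8 * (κ + 1)) ≤ 1 := by
    rw [div_le_one (by positivity)]; linarith
  obtain ⟨lam, hlam, hsplit⟩ := split (e / (4 * (κ + 1) ^ 2)) (e / (8 * (κ + 1))) hη0 hη1
    hε0' hε1'
  have hε10 : 0 < e / (8 * (κ + 1) ^ 2) := by positivity
  have hε11 : e / (8 * (κ + 1) ^ 2) ≤ 1 := by
    rw [div_le_one (by positivity)]; nlinarith
  have hlam1 : 0 < e * lam / (4 * (κ + 1)) := by positivity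
  obtain ⟨m, hm, K, hK, hpr⟩ := hprop _ _ hε10 hε11 hlam1
  have hl2 : 0 ≤ Real.log 2 := Real.log_nonneg (by norm_num)
  refine ⟨m, hm, κ * K + κ * Real.log 2 + Real.log 2, by positivity, ?_⟩
  intro G W Y hG hH hY hYpos
  obtain ⟨ρ, hρ0, hρ1, S, hSY, hSne, hP, hWt⟩ := hsplit Y hY hYpos
  obtain ⟨S', hS'S, hS'ne, hS'card, hS'r⟩ :=
    small_branch lam (e / (8 * (κ + 1))) ρ hlam hε1' Y S hY hSY hρ1 hWt
  have hS'Y : S' ⊆ Y := hS'S.trans hSY
  have hS'pos : ∀ y ∈ S', 0 < y := fun y hy => hYpos y (hS'Y hy)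
  have hGne : G.Nonempty := by
    obtain ⟨g, hg, -⟩ := hG
    exact ⟨g, hg⟩
  have hB0 : 0 ≤ e * lam / (4 * (κ + 1)) * (rr S' : ℝ) + K * (qq W S' : ℝ) := by positivity
  obtain ⟨g, hg, hgs⟩ := kfold1 (e / (8 * (κ + 1) ^ 2))
    (e * lam / (4 * (κ + 1)) * (rr S' : ℝ) + K * (qq W S' : ℝ)) hε10.le hB0 G hG Y S' hY hS'ne
    hS'Y (by
      intro X hX
      have h1 := hpr G W S' hGne (hmono m G W Y S' hS'Y hH) hS'ne hS'pos X hX
      unfold Bd at h1
      linarith) k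
  refine ⟨g, hg, ?_⟩
  have p1 := kprod1 (e / (4 * (κ + 1) ^ 2)) ρ hη0.le hη1 hρ0 Y hY hYpos hP k
  refine le_trans ?_ (add_le_add p1 hgs)
  have hq : (qq W S' : ℝ) ≤ (qq W Y : ℝ) := by exact_mod_cast qq_mono W hS'Y
  have hq0 : (0 : ℝ) ≤ (qq W Y : ℝ) := Nat.cast_nonneg _
  rw [← hκd]
  generalize Real.log (Y.card : ℝ) = LY at *
  generalize Real.log (S'.card : ℝ) = LS at *
  generalize (qq W S' : ℝ) = q' at *
  generalize (qq W Y : ℝ) = q at *
  generalize (rr S' : ℝ) = r at *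
  generalize Real.log 2 = l2 at *
  have hLY : 0 ≤ LY := le_trans hρ0 hρ1
  -- products
  have c1 : (1 - (κ + 1) * (e / (4 * (κ + 1) ^ 2))) * (LY + κ * ρ) =
      LY + κ * ρ - e / (4 * (κ + 1)) * (LY + κ * ρ) := by
    field_simp
  have c1' : e / (4 * (κ + 1)) * (LY + κ * ρ) ≤ e / 4 * LY := by
    have h1 : LY + κ * ρ ≤ (κ + 1) * LY := by nlinarith
    have h2 : e / (4 * (κ + 1)) * (LY + κ * ρ) ≤ e / (4 * (κ + 1)) * ((κ + 1) * LY) :=
      mul_le_mul_of_nonneg_left h1 (by positivity)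
    have h3 : e / (4 * (κ + 1)) * ((κ + 1) * LY) = e / 4 * LY := by field_simp
    linarith
  -- sums
  have c2 : κ * ((κ + 1) * (e / (8 * (κ + 1) ^ 2)) * LY +
      (e * lam / (4 * (κ + 1)) * r + K * q')) =
      κ / (κ + 1) * (e / 8) * LY + κ / (κ + 1) * (e * lam / 4 * r) + κ * K * q' := by
    field_simp
    ring
  have hκ1 : κ / (κ + 1) ≤ 1 := by
    rw [div_le_one (by positivity)]
    linarith
  have hκ2 : 0 ≤ κ / (κ + 1) := by positivity
  have hr0 : e * lam / 4 * r ≤ e / 4 * (l2 + LY) := by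
    have h1 : e * lam / 4 * r ≤ e * lam / 4 * ((l2 + LY) / lam) :=
      mul_le_mul_of_nonneg_left hS'r (by positivity)
    have h2 : e * lam / 4 * ((l2 + LY) / lam) = e / 4 * (l2 + LY) := by field_simp
    linarith
  have c3 : κ / (κ + 1) * (e * lam / 4 * r) ≤ e / 4 * (l2 + LY) := by
    have h1 : κ / (κ + 1) * (e * lam / 4 * r) ≤ κ / (κ + 1) * (e / 4 * (l2 + LY)) :=
      mul_le_mul_of_nonneg_left hr0 hκ2
    have h2 : κ / (κ + 1) * (e / 4 * (l2 + LY)) ≤ 1 * (e / 4 * (l2 + LY)) :=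
      mul_le_mul_of_nonneg_right hκ1 (by positivity)
    linarith
  have c4 : κ / (κ + 1) * (e / 8) * LY ≤ e / 8 * LY := by
    have h1 : κ / (κ + 1) * (e / 8) * LY ≤ 1 * (e / 8) * LY :=
      mul_le_mul_of_nonneg_right (mul_le_mul_of_nonneg_right hκ1 (by positivity)) hLY
    linarith
  have c5 : κ * ((1 - e / (8 * (κ + 1))) * (LY - ρ) - l2) ≤ κ * LS :=
    mul_le_mul_of_nonneg_left hS'card hκ0
  have c6 : κ * ((1 - e / (8 * (κ + 1))) * (LY - ρ) - l2) =
      κ * (LY - ρ) - κ / (κ + 1) * (e / 8 * (LY - ρ)) - κ * l2 := by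
    field_simp
  have c7 : κ / (κ + 1) * (e / 8 * (LY - ρ)) ≤ e / 8 * LY := by
    have h1 : κ / (κ + 1) * (e / 8 * (LY - ρ)) ≤ 1 * (e / 8 * (LY - ρ)) :=
      mul_le_mul_of_nonneg_right hκ1 (mul_nonneg (by positivity) (by linarith))
    have h2 : 0 ≤ e / 8 * ρ := by positivity
    linarith
  have d3 : κ * K * q' ≤ κ * K * q := mul_le_mul_of_nonneg_left hq (by positivity)
  have d7 : (κ + 2 - ε) * LY ≤ (κ + 2 - e) * LY :=
    mul_le_mul_of_nonneg_right (by linarith) hLY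
  have d8 : 0 ≤ (κ * l2 + l2) * q := by positivity
  have d9 : e / 4 * l2 ≤ l2 := by nlinarith
  have d10 : 0 ≤ κ * K := by positivity
  have d11 : 0 ≤ e / 4 * LY := by positivity
  have d12 : (κ * K + κ * l2 + l2) * (1 + q) =
      κ * K + κ * K * q + κ * l2 + l2 + (κ * l2 + l2) * q := by ring
  have d13 : (κ + 2 - e) * LY = κ * (LY - ρ) + κ * ρ + 2 * LY - e * LY := by ring
  have d14 : e / 4 * (l2 + LY) = e / 4 * l2 + e / 4 * LY := by ring
  have d15 : e * LY = e / 4 * LY + e / 4 * LY + e / 8 * LY + e / 8 * LY + e / 4 * LY := by ring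
  rw [c1, c2, d12]
  linarith

/-- (1) for positive integers with the exponent `k + 1` -/
theorem main1k (k : ℕ) (hk : 1 ≤ k) (ε : ℝ) (hε : 0 < ε) : ∃ m : ℕ, 2 ≤ m ∧ ∃ K : ℝ, 0 ≤ K ∧
    ∀ G : Finset ℕ, m ≤ G.card →
    ∀ W : Finset ℕ, (∀ p : ℕ, p.Prime → p ∉ W → ∀ g ∈ G, ∀ g' ∈ G,
      ((g : ℕ) : ZMod p) = ((g' : ℕ) : ZMod p) → g = g') →
    ∀ Y : Finset ℕ, Y.Nonempty → (∀ y ∈ Y, 0 < y) →
      (∀ p : ℕ, p.Prime → NC Y p → ∀ g ∈ G, ∀ g' ∈ G, p ∣ g → p ∣ g' → g = g') →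
      ∃ g : Fin k → ℕ, (∀ i, g i ∈ G) ∧
        ((k : ℝ) + 1 - ε) * Real.log (Y.card : ℝ) - K * (1 + (qq W Y : ℝ)) ≤
          Real.log ((((Fintype.piFinset (fun _ : Fin k => Y)).image
            (fun f : Fin k → ℕ => ∏ i, f i)).card : ℕ) : ℝ) +
          Real.log ((((Fintype.piFinset (fun _ : Fin k => Y)).image
            (fun f : Fin k → ℕ => ∑ i, ((g i : ℕ) : ℤ) * ((f i : ℕ) : ℤ))).card : ℕ) : ℝ) := by
  obtain ⟨j, rfl⟩ : ∃ j : ℕ, k = j + 1 := ⟨k - 1, by omega⟩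
  obtain ⟨m, hm, K, hK, h⟩ := main1k_abs
    (fun m G W Y => m ≤ G.card ∧ (∀ p : ℕ, p.Prime → p ∉ W → ∀ g ∈ G, ∀ g' ∈ G,
        ((g : ℕ) : ZMod p) = ((g' : ℕ) : ZMod p) → g = g') ∧
      (∀ p : ℕ, p.Prime → NC Y p → ∀ g ∈ G, ∀ g' ∈ G, p ∣ g → p ∣ g' → g = g'))
    (fun m G W Y Z hZY h => ⟨h.1, h.2.1, fun p hp hNC => h.2.2 p hp (NC_mono hZY hNC)⟩) (by
      intro ε lam hε hε1 hlam
      obtain ⟨m, hm, K, hK, h⟩ := propT ε lam hε hε1 hlam
      refine ⟨m, hm, K, hK, ?_⟩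
      intro G W Y _ hH hY hYpos X hX
      exact h G hH.1 W hH.2.1 Y hY hYpos hH.2.2 X hX) j ε hε
  refine ⟨m, hm, K, hK, ?_⟩
  intro G hG W hW Y hY hYpos hco
  have hpos : ∃ g ∈ G, 0 < g := by
    by_contra hcon
    push Not at hcon
    have h1 : G ⊆ {0} := by
      intro g hg
      have := hcon g hg
      rw [Finset.mem_singleton]
      omega
    have h2 := Finset.card_le_card h1
    rw [Finset.card_singleton] at h2
    omega
  obtain ⟨g, hg, hb⟩ := h G W Y hpos ⟨hG, hW, hco⟩ hY hYpos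
  refine ⟨g, hg, le_trans (le_of_eq ?_) hb⟩
  push_cast
  ring

end Pool.Agent.Helper99.MD
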